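import Pool.Agent.P8H60.EN.Stm4

/-!
# Project EN, package ATB: attainment by curves with `m` pieces
-/

set_option autoImplicit false

namespace Pool.Agent.P8H21.EN.Atb

open Pool.Agent.P8H60.EN

/-- the curve for one `n` with many good blocks. -/
lemma good (g : ℕ → ℝ) (B m L : ℕ) (D D' q e : ℝ) (n : ℕ) (hm : 1 ≤ m) (hB : 1 ≤ B)
    (hL : m * B ≤ L) (hD : D ≤ D') (hq : 1 ≤ q * B)
    (I : Finset ℕ) (hI : I ⊆ Finset.range m) (hc : (1 - e) * m ≤ (I.card : ℝ))
    (hg : ∀ i ∈ I, ∃ c : ℝ, q * B ≤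
      ({j : ℕ | j ≤ B ∧ |g (n + i * B + j) - g (n + i * B) - (c + j)| ≤ D}.ncard : ℝ)) :
    ∃ f : ℕ → ℝ, {j : ℕ | j < L ∧ f (j + 1) ≠ f j + 1}.ncard < m ∧
      (1 - e) * m * (q * B - 1) ≤ ({j : ℕ | j ≤ L ∧ |g (n + j) - g n - f j| ≤ D'}.ncard : ℝ) := by
  classical
  choose! c' hc' using hg
  let c : ℕ → ℝ := fun i => g (n + i * B) - g n + c' i - ((i * B : ℕ) : ℝ)
  refine ⟨fun j => c (min (j / B) (m - 1)) + j, ?_, ?_⟩
  · have h1 : {j : ℕ | j < L ∧ (fun j : ℕ => c (min (j / B) (m - 1)) + (j : ℝ)) (j + 1) ≠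
        (fun j : ℕ => c (min (j / B) (m - 1)) + (j : ℝ)) j + 1} ⊆
        (fun i => i * B - 1) '' (↑(Finset.Ico 1 m) : Set ℕ) := by
      rintro j ⟨hj, hne⟩
      have h2 : min ((j+1)/B) (m-1) ≠ min (j/B) (m-1) := by
        intro h
        apply hne
        show c (min ((j+1)/B) (m-1)) + ((j + 1 : ℕ) : ℝ) = c (min (j/B) (m-1)) + (j : ℝ) + 1
        rw [h]; push_cast; ring
      have h3 : (j+1)/B = j/B + if B ∣ j + 1 then 1 else 0 := Nat.succ_div
      split_ifs at h3 with hd
      · refine ⟨(j+1)/B, ?_, ?_⟩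
        · rw [h3] at h2
          simp only [Finset.coe_Ico, Set.mem_Ico]
          rw [h3]
          generalize j / B = k at h2 ⊢
          refine ⟨by omega, ?_⟩
          by_contra hk
          apply h2
          rw [min_eq_right (by omega), min_eq_right (by omega)]
        · show (j+1)/B * B - 1 = j
          rw [Nat.div_mul_cancel hd]; omega
      · exact absurd (by rw [h3, add_zero]) h2
    calc _ ≤ ((fun i => i * B - 1) '' (↑(Finset.Ico 1 m) : Set ℕ)).ncard :=
          Set.ncard_le_ncard h1 (Set.Finite.image _ (Finset.finite_toSet _))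
      _ ≤ (↑(Finset.Ico 1 m) : Set ℕ).ncard := Set.ncard_image_le (Finset.finite_toSet _)
      _ = m - 1 := by rw [Set.ncard_coe_finset]; simp
      _ < m := by omega
  · let T : ℕ → Finset ℕ := fun i => (Finset.range B).filter
      (fun j => |g (n + i * B + j) - g (n + i * B) - (c' i + j)| ≤ D)
    have hT : ∀ i ∈ I, q * B - 1 ≤ ((T i).card : ℝ) := by
      intro i hi
      have h1 := hc' i hi
      have h2 : {j : ℕ | j ≤ B ∧ |g (n + i * B + j) - g (n + i * B) - (c' i + j)| ≤ D}.ncard ≤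
          (T i).card + 1 := by
        calc _ ≤ (↑(insert B (T i)) : Set ℕ).ncard := by
              apply Set.ncard_le_ncard _ (Finset.finite_toSet _)
              rintro j ⟨hj, hj2⟩
              rw [Finset.coe_insert, Set.mem_insert_iff]
              rcases eq_or_lt_of_le hj with h | h
              · exact Or.inl h
              · right
                simp only [T, Finset.coe_filter, Finset.mem_range, Set.mem_setOf_eq]
                exact ⟨h, hj2⟩
          _ = (insert B (T i)).card := Set.ncard_coe_finset _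
          _ ≤ (T i).card + 1 := Finset.card_insert_le _ _
      have h3 : ({j : ℕ | j ≤ B ∧ |g (n + i * B + j) - g (n + i * B) - (c' i + j)| ≤ D}.ncard : ℝ) ≤
          ((T i).card : ℝ) + 1 := by exact_mod_cast h2
      linarith
    let U : Finset ℕ := I.biUnion (fun i => (T i).image (fun j => i * B + j))
    have hU : U.card = ∑ i ∈ I, (T i).card := by
      rw [Finset.card_biUnion]
      · apply Finset.sum_congr rfl
        intro i _
        apply Finset.card_image_of_injective
        intro a b hab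
        simpa using hab
      · intro i hi k hk hik
        rw [Function.onFun, Finset.disjoint_left]
        intro x hx hx2
        simp only [T, Finset.mem_image, Finset.mem_filter, Finset.mem_range] at hx hx2
        obtain ⟨a, ⟨ha, -⟩, rfl⟩ := hx
        obtain ⟨b, ⟨hb, -⟩, hab⟩ := hx2
        apply hik
        have h1 : (i * B + a) / B = i := by
          rw [mul_comm, Nat.mul_add_div (by omega), Nat.div_eq_of_lt ha, add_zero]
        have h2 : (k * B + b) / B = k := by
          rw [mul_comm, Nat.mul_add_div (by omega), Nat.div_eq_of_lt hb, add_zero]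
        rw [← h1, ← h2, hab]
    have hsub : (↑U : Set ℕ) ⊆ {j : ℕ | j ≤ L ∧
        |g (n + j) - g n - (fun j : ℕ => c (min (j / B) (m - 1)) + (j : ℝ)) j| ≤ D'} := by
      intro x hx
      rw [Finset.mem_coe, Finset.mem_biUnion] at hx
      obtain ⟨i, hi, hx⟩ := hx
      simp only [T, Finset.mem_image, Finset.mem_filter, Finset.mem_range] at hx
      obtain ⟨a, ⟨ha, ha2⟩, rfl⟩ := hx
      have him : i < m := Finset.mem_range.1 (hI hi)
      have h1 : (i * B + a) / B = i := by
        rw [mul_comm, Nat.mul_add_div (by omega), Nat.div_eq_of_lt ha, add_zero]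
      refine ⟨?_, ?_⟩
      · have : (i + 1) * B ≤ m * B := Nat.mul_le_mul_right _ him
        nlinarith
      · show |g (n + (i * B + a)) - g n - (c (min ((i * B + a) / B) (m - 1)) + ((i * B + a : ℕ) : ℝ))| ≤ D'
        rw [h1, min_eq_left (by omega : i ≤ m - 1)]
        refine le_trans (le_of_eq ?_) (le_trans ha2 hD)
        congr 1
        simp only [c]
        rw [← add_assoc]
        push_cast
        ring
    have hfin : {j : ℕ | j ≤ L ∧
        |g (n + j) - g n - (fun j : ℕ => c (min (j / B) (m - 1)) + (j : ℝ)) j| ≤ D'}.Finite :=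
      (Set.finite_Iic L).subset (fun j hj => hj.1)
    have h4 := Set.ncard_le_ncard hsub hfin
    rw [Set.ncard_coe_finset, hU] at h4
    have h5 : ((∑ i ∈ I, (T i).card : ℕ) : ℝ) ≤ ({j : ℕ | j ≤ L ∧
        |g (n + j) - g n - (fun j : ℕ => c (min (j / B) (m - 1)) + (j : ℝ)) j| ≤ D'}.ncard : ℝ) := by
      exact_mod_cast h4
    refine le_trans ?_ h5
    rw [Nat.cast_sum]
    calc (1 - e) * m * (q * B - 1) ≤ (I.card : ℝ) * (q * B - 1) :=
          mul_le_mul_of_nonneg_right hc (by linarith)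
      _ = ∑ i ∈ I, (q * B - 1) := by rw [Finset.sum_const, nsmul_eq_mul]
      _ ≤ ∑ i ∈ I, ((T i).card : ℝ) := Finset.sum_le_sum hT

/-- package ATB. -/
theorem t_ATB : S_ATB := by
  classical
  intro g B m L N D D' q e η' hm hB hL hLN hD he he1 hq hη hE
  let P : ℕ → Prop := fun n => ∀ c : ℝ,
    ({j : ℕ | j ≤ B ∧ |g (n + j) - g n - (c + j)| ≤ D}.ncard : ℝ) < q * B
  let EF : Finset ℕ := (Finset.Icc 1 (2 * N)).filter P
  have hEF : ((EF.card : ℕ) : ℝ) ≤ η' * N := by
    have : {n : ℕ | 1 ≤ n ∧ n ≤ 2 * N ∧ ∀ c : ℝ,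
        ({j : ℕ | j ≤ B ∧ |g (n + j) - g n - (c + j)| ≤ D}.ncard : ℝ) < q * B} = (↑EF : Set ℕ) := by
      ext n
      simp only [EF, P, Set.mem_setOf_eq, Finset.coe_filter, Finset.mem_Icc, and_assoc]
    rw [this, Set.ncard_coe_finset] at hE
    exact hE
  let bad : ℕ → ℕ := fun n => ((Finset.range m).filter (fun i => n + i * B ∈ EF)).card
  let S : Finset ℕ := (Finset.Icc 1 N).filter (fun n => e * m < (bad n : ℝ))
  have hsub : {n : ℕ | 1 ≤ n ∧ n ≤ N ∧ ∀ f : ℕ → ℝ, {j : ℕ | j < L ∧ f (j + 1) ≠ f j + 1}.ncard < m →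
      ({j : ℕ | j ≤ L ∧ |g (n + j) - g n - f j| ≤ D'}.ncard : ℝ) < (1 - e) * m * (q * B - 1)} ⊆
      (↑S : Set ℕ) := by
    rintro n ⟨hn1, hn2, hn⟩
    simp only [S, Finset.coe_filter, Finset.mem_Icc, Set.mem_setOf_eq]
    refine ⟨⟨hn1, hn2⟩, ?_⟩
    by_contra hcon
    push Not at hcon
    obtain ⟨f, hf1, hf2⟩ := good g B m L D D' q e n hm hB hL hD hq
      ((Finset.range m).filter (fun i => ¬ (n + i * B ∈ EF))) (Finset.filter_subset _ _) (by
        have h1 := Finset.card_filter_add_card_filter_not (s := Finset.range m)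
          (fun i => n + i * B ∈ EF)
        rw [Finset.card_range] at h1
        have h2 : ((bad n : ℕ) : ℝ) + (((Finset.range m).filter
          (fun i => ¬ (n + i * B ∈ EF))).card : ℝ) = m := by exact_mod_cast h1
        linarith) (by
        intro i hi
        rw [Finset.mem_filter, Finset.mem_range] at hi
        obtain ⟨him, hiE⟩ := hi
        by_contra hno
        push Not at hno
        apply hiE
        simp only [EF, Finset.mem_filter, Finset.mem_Icc]
        refine ⟨⟨by omega, ?_⟩, hno⟩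
        have : i * B ≤ m * B := Nat.mul_le_mul_right _ him.le
        omega)
    exact absurd (hn f hf1) (not_lt.2 hf2)
  have h1 : ({n : ℕ | 1 ≤ n ∧ n ≤ N ∧ ∀ f : ℕ → ℝ, {j : ℕ | j < L ∧ f (j + 1) ≠ f j + 1}.ncard < m →
      ({j : ℕ | j ≤ L ∧ |g (n + j) - g n - f j| ≤ D'}.ncard : ℝ) < (1 - e) * m * (q * B - 1)}.ncard : ℝ)
      ≤ (S.card : ℝ) := by
    have := Set.ncard_le_ncard hsub (Finset.finite_toSet _)
    rw [Set.ncard_coe_finset] at this
    exact_mod_cast this
  refine le_trans h1 ?_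
  -- the double count
  have h2 : ∑ n ∈ Finset.Icc 1 N, bad n ≤ m * EF.card := by
    have h3 : ∑ n ∈ Finset.Icc 1 N, bad n =
        ∑ i ∈ Finset.range m, ((Finset.Icc 1 N).filter (fun n => n + i * B ∈ EF)).card := by
      simp only [bad, Finset.card_filter]
      exact Finset.sum_comm
    rw [h3]
    calc ∑ i ∈ Finset.range m, ((Finset.Icc 1 N).filter (fun n => n + i * B ∈ EF)).card
        ≤ ∑ i ∈ Finset.range m, EF.card := by
          apply Finset.sum_le_sum
          intro i _
          apply Finset.card_le_card_of_injOn (fun n => n + i * B)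
          · intro n hn
            exact (Finset.mem_filter.1 hn).2
          · intro a _ b _ hab
            simpa using hab
      _ = m * EF.card := by rw [Finset.sum_const, Finset.card_range, smul_eq_mul]
  have h4 : (∑ n ∈ Finset.Icc 1 N, (bad n : ℝ)) ≤ m * (EF.card : ℝ) := by exact_mod_cast h2
  have h5 : (S.card : ℝ) * (e * m) ≤ ∑ n ∈ Finset.Icc 1 N, (bad n : ℝ) := by
    calc (S.card : ℝ) * (e * m) = ∑ n ∈ S, (e * m) := by rw [Finset.sum_const, nsmul_eq_mul]
      _ ≤ ∑ n ∈ S, (bad n : ℝ) := Finset.sum_le_sum (fun n hn => (Finset.mem_filter.1 hn).2.le)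
      _ ≤ ∑ n ∈ Finset.Icc 1 N, (bad n : ℝ) :=
          Finset.sum_le_sum_of_subset_of_nonneg (Finset.filter_subset _ _)
            (fun _ _ _ => Nat.cast_nonneg _)
  have hm0 : (0 : ℝ) < m := by exact_mod_cast hm
  have h6 : (S.card : ℝ) * e * m ≤ η' * N * m := by
    have : (m : ℝ) * (EF.card : ℝ) ≤ m * (η' * N) := mul_le_mul_of_nonneg_left hEF hm0.le
    nlinarith
  have h7 : (S.card : ℝ) * e ≤ η' * N := le_of_mul_le_mul_right h6 hm0
  rw [div_mul_eq_mul_div, le_div_iff₀ he]
  exact h7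

end Pool.Agent.P8H21.EN.Atb
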